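import Mathlib

/-!
# MP_d97c10_lc: finite products of ordinal frames have locally finite modal algebras

For all ordinals `α_1, ..., α_k` the modal algebras of the direct products of the frames
`(α_i, ≤)` and of the frames `(α_i, <)` are locally finite.

We show that every finite colouring of a product of well-orders has a tuned finite refinement, by
well-founded induction on the tuple of the order types: choose a corner `a` such that every colour
occurring above `a` occurs cofinally above `a`, and cut the product into the boxes given by the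
sets of the coordinates `i` with `a_i ≤ x_i`.
-/

set_option autoImplicit false

universe u

namespace Pool.Agent.Results.MP_d97c10_lc.OrdinalProducts

/-! ## Definitions -/

/-- The diamond operator of the frame `(W, R)` on subsets of `W`. -/
def dia {W : Type u} (R : W → W → Prop) (X : Set W) : Set W := {w | ∃ v ∈ X, R w v}

/-- The subalgebra of the modal algebra `Alg(W, R)` generated by the sets in `G`: the smallest
family containing `G` and `∅` and closed under complement, union and diamond. -/
def subalg {W : Type u} (R : W → W → Prop) (G : Set (Set W)) : Set (Set W) :=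
  ⋂₀ {F | G ⊆ F ∧ ∅ ∈ F ∧ (∀ S ∈ F, Sᶜ ∈ F) ∧ (∀ S ∈ F, ∀ T ∈ F, S ∪ T ∈ F) ∧
    ∀ S ∈ F, dia R S ∈ F}

/-- The modal algebra of the frame `(W, R)` is locally finite: each finitely generated subalgebra
is finite. -/
def AlgLocallyFinite {W : Type u} (R : W → W → Prop) : Prop :=
  ∀ G : Set (Set W), G.Finite → (subalg R G).Finite

/-- The direct product of the frames `(α_i, ≤)`, an ordinal being the set of smaller ordinals. -/
def prodLe {k : ℕ} (α : Fin k → Ordinal.{u}) (x y : ∀ i, Set.Iio (α i)) : Prop :=
  ∀ i, x i ≤ y i

/-- The direct product of the frames `(α_i, <)`. -/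
def prodLt {k : ℕ} (α : Fin k → Ordinal.{u}) (x y : ∀ i, Set.Iio (α i)) : Prop :=
  ∀ i, x i < y i

/-! ## Tuned refinements -/

section tuned
variable {W : Type u} (R : W → W → Prop)

/-- The colouring `c` of `X` has a tuned finite refinement. -/
def TunC (X : Set W) (c : W → ℕ) : Prop :=
  ∃ d : W → ℕ, (Set.range d).Finite ∧ (∀ x ∈ X, ∀ y ∈ X, d x = d y → c x = c y) ∧
    ∀ x ∈ X, ∀ y ∈ X, d x = d y → ∀ z ∈ X, R x z → ∃ z' ∈ X, R y z' ∧ d z' = d z

/-- Every finite colouring of `X` has a tuned finite refinement. -/
def Tun (X : Set W) : Prop := ∀ c : W → ℕ, (Set.range c).Finite → TunC R X c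

theorem encode {T : Type*} (f : W → T) (hf : (Set.range f).Finite) :
    ∃ g : W → ℕ, (Set.range g).Finite ∧ ∀ x y, g x = g y ↔ f x = f y := by
  obtain ⟨e, he⟩ := Set.countable_iff_exists_injOn.1 hf.countable
  refine ⟨fun x => e (f x), ?_, fun x y => ⟨fun h => he ⟨x, rfl⟩ ⟨y, rfl⟩ h, fun h => ?_⟩⟩
  · have : Set.range (fun x => e (f x)) = e '' Set.range f := by
      rw [← Set.range_comp]; rfl
    rw [this]
    exact hf.image _
  · show e (f x) = e (f y)
    rw [h]

theorem tun_empty (c : W → ℕ) : TunC R ∅ c :=
  ⟨fun _ => 0, (Set.finite_singleton 0).subset (by rintro _ ⟨x, rfl⟩; rfl),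
    fun x hx => hx.elim, fun x hx => hx.elim⟩

theorem glue {X U : Set W} {c : W → ℕ} (hc : (Set.range c).Finite) (hUX : U ⊆ X)
    (hup : ∀ x ∈ U, ∀ z ∈ X, R x z → z ∈ U) {J : Type*} [Finite J] (lab : W → J)
    (hlab : ∀ x ∈ X, x ∉ U → ∀ z ∈ X, z ∉ U → R x z → lab x = lab z)
    (hU : TunC R U c) (hV : ∀ j, Tun R {x | x ∈ X ∧ x ∉ U ∧ lab x = j}) : TunC R X c := by
  classical
  obtain ⟨dU, hdU, hr, ht⟩ := hU
  -- the refined colouring
  have hseen : (Set.range fun x => (c x, {e | ∃ z ∈ U, R x z ∧ dU z = e})).Finite := by
    refine (hc.prod (hdU.finite_subsets)).subset ?_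
    rintro _ ⟨x, rfl⟩
    refine ⟨⟨x, rfl⟩, ?_⟩
    rintro e ⟨z, _, _, rfl⟩
    exact ⟨z, rfl⟩
  obtain ⟨c', hc', hcc⟩ := encode _ hseen
  have h1 : ∀ j, ∃ d : W → ℕ, (Set.range d).Finite ∧
      (∀ x, (x ∈ X ∧ x ∉ U ∧ lab x = j) → ∀ y, (y ∈ X ∧ y ∉ U ∧ lab y = j) →
        d x = d y → c' x = c' y) ∧
      ∀ x, (x ∈ X ∧ x ∉ U ∧ lab x = j) → ∀ y, (y ∈ X ∧ y ∉ U ∧ lab y = j) → d x = d y →
        ∀ z, (z ∈ X ∧ z ∉ U ∧ lab z = j) → R x z →
          ∃ z', (z' ∈ X ∧ z' ∉ U ∧ lab z' = j) ∧ R y z' ∧ d z' = d z := fun j => hV j c' hc'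
  choose dV hdV hrV htV using h1
  let F' : W → Option ℕ ⊕ (J × ℕ) := fun x =>
    if x ∈ U then .inl (some (dU x)) else .inr (lab x, dV (lab x) x)
  have hF : (Set.range F').Finite := by
    have e1 : (Set.range fun x : W => (Sum.inl (some (dU x)) : Option ℕ ⊕ (J × ℕ))).Finite := by
      have : (Set.range fun x : W => (Sum.inl (some (dU x)) : Option ℕ ⊕ (J × ℕ))) =
          (fun n => Sum.inl (some n)) '' Set.range dU := by
        rw [← Set.range_comp]; rfl
      rw [this]
      exact hdU.image _
    have e2 : (⋃ j : J, (fun n => (Sum.inr (j, n) : Option ℕ ⊕ (J × ℕ))) ''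
        Set.range (dV j)).Finite := Set.finite_iUnion fun j => (hdV j).image _
    refine (e1.union e2).subset ?_
    rintro _ ⟨x, rfl⟩
    by_cases hx : x ∈ U
    · left; exact ⟨x, by simp [F', hx]⟩
    · right
      refine Set.mem_iUnion.2 ⟨lab x, dV (lab x) x, ⟨x, rfl⟩, by simp [F', hx]⟩
  obtain ⟨d, hd, hdd⟩ := encode _ hF
  have key1 : ∀ x, x ∈ U → ∀ y, d x = d y → y ∈ U ∧ dU x = dU y := by
    intro x hx y hxy
    have h2 := (hdd x y).1 hxy
    by_cases hy : y ∈ U
    · refine ⟨hy, ?_⟩
      simpa [F', hx, hy] using h2
    · simp [F', hx, hy] at h2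
  have key2 : ∀ x, x ∉ U → ∀ y, d x = d y → y ∉ U ∧ lab x = lab y ∧
      dV (lab x) x = dV (lab x) y := by
    intro x hx y hxy
    have h2 := (hdd x y).1 hxy
    by_cases hy : y ∈ U
    · simp [F', hx, hy] at h2
    · refine ⟨hy, ?_⟩
      simp only [F', hx, hy, if_false, Sum.inr.injEq, Prod.mk.injEq] at h2
      refine ⟨h2.1, ?_⟩
      rw [h2.2, h2.1]
  refine ⟨d, hd, ?_, ?_⟩
  · intro x hx y hy hxy
    by_cases hxU : x ∈ U
    · obtain ⟨hyU, h2⟩ := key1 x hxU y hxy
      exact hr x hxU y hyU h2
    · obtain ⟨hyU, h2, h3⟩ := key2 x hxU y hxy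
      have h4 := hrV (lab x) x ⟨hx, hxU, rfl⟩ y ⟨hy, hyU, h2.symm⟩ h3
      rw [hcc] at h4
      exact congrArg Prod.fst h4
  · intro x hx y hy hxy z hz hxz
    by_cases hxU : x ∈ U
    · obtain ⟨hyU, h2⟩ := key1 x hxU y hxy
      have hzU := hup x hxU z hz hxz
      obtain ⟨z', hz', h3, h4⟩ := ht x hxU y hyU h2 z hzU hxz
      refine ⟨z', hUX hz', h3, ?_⟩
      rw [hdd]
      simp [F', hz', hzU, h4]
    · obtain ⟨hyU, h2, h3⟩ := key2 x hxU y hxy
      by_cases hzU : z ∈ U
      · have h4 := hrV (lab x) x ⟨hx, hxU, rfl⟩ y ⟨hy, hyU, h2.symm⟩ h3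
        rw [hcc] at h4
        have h5 : {e | ∃ z ∈ U, R x z ∧ dU z = e} = {e | ∃ z ∈ U, R y z ∧ dU z = e} :=
          congrArg Prod.snd h4
        have h6 : dU z ∈ {e | ∃ z ∈ U, R x z ∧ dU z = e} := ⟨z, hzU, hxz, rfl⟩
        rw [h5] at h6
        obtain ⟨z', hz', h7, h8⟩ := h6
        refine ⟨z', hUX hz', h7, ?_⟩
        rw [hdd]
        simp [F', hz', hzU, h8]
      · have hl := hlab x hx hxU z hz hzU hxz
        obtain ⟨z', ⟨hz'1, hz'2, hz'3⟩, h4, h5⟩ := htV (lab x) x ⟨hx, hxU, rfl⟩ y
          ⟨hy, hyU, h2.symm⟩ h3 z ⟨hz, hzU, hl.symm⟩ hxz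
        refine ⟨z', hz'1, h4, ?_⟩
        rw [hdd]
        simp only [F', hz'2, hzU, if_false, Sum.inr.injEq, Prod.mk.injEq]
        refine ⟨hz'3.trans hl, ?_⟩
        rw [hz'3, h5, hl]

/-- If the whole frame has tuned refinements, its modal algebra is locally finite. -/
theorem algLocallyFinite_of_tun (h : Tun R Set.univ) : AlgLocallyFinite R := by
  classical
  intro G hG
  have hfin : (Set.range fun x : W => {S | S ∈ G ∧ x ∈ S}).Finite := by
    refine hG.finite_subsets.subset ?_
    rintro _ ⟨x, rfl⟩ S hS
    exact hS.1
  obtain ⟨c, hc, hcc⟩ := encode _ hfin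
  obtain ⟨d, hd, hr, ht⟩ := h c hc
  have hr' : ∀ x y, d x = d y → ∀ S ∈ G, (x ∈ S → y ∈ S) := by
    intro x y hxy S hS hx
    have h1 := (hcc x y).1 (hr x trivial y trivial hxy)
    have h2 : S ∈ {S | S ∈ G ∧ x ∈ S} := ⟨hS, hx⟩
    rw [h1] at h2
    exact h2.2
  -- the family of the unions of classes
  have hsub : subalg R G ⊆ (fun E : Set ℕ => {x | d x ∈ E}) '' {E | E ⊆ Set.range d} := by
    have hinv : ∀ S : Set W, (∀ x y, d x = d y → x ∈ S → y ∈ S) →
        S ∈ (fun E : Set ℕ => {x | d x ∈ E}) '' {E | E ⊆ Set.range d} := by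
      intro S hS
      refine ⟨d '' S, Set.image_subset_range _ _, ?_⟩
      ext x
      constructor
      · rintro ⟨y, hy, hyx⟩
        exact hS y x hyx hy
      · intro hx
        exact ⟨x, hx, rfl⟩
    have hinv' : ∀ S ∈ (fun E : Set ℕ => {x | d x ∈ E}) '' {E | E ⊆ Set.range d},
        ∀ x y, d x = d y → x ∈ S → y ∈ S := by
      rintro _ ⟨E, _, rfl⟩ x y hxy hx
      change d y ∈ E
      rw [← hxy]
      exact hx
    intro S hS
    refine hS _ ⟨?_, ?_, ?_, ?_, ?_⟩
    · intro T hT
      exact hinv T fun x y hxy hx => hr' x y hxy T hT hx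
    · exact hinv ∅ fun x y _ hx => hx
    · intro T hT
      exact hinv _ fun x y hxy hx hy => hx (hinv' T hT y x hxy.symm hy)
    · intro T hT T' hT'
      refine hinv _ fun x y hxy hx => ?_
      rcases hx with hx | hx
      · exact Or.inl (hinv' T hT x y hxy hx)
      · exact Or.inr (hinv' T' hT' x y hxy hx)
    · intro T hT
      refine hinv _ ?_
      rintro x y hxy ⟨z, hz, hxz⟩
      obtain ⟨z', -, h1, h2⟩ := ht x trivial y trivial hxy z trivial hxz
      exact ⟨z', hinv' T hT z z' h2.symm hz, h1⟩
  exact (hd.finite_subsets.image _).subset hsub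

end tuned

/-! ## Products of well-orders -/

section product
variable {ι : Type} [Fintype ι] [DecidableEq ι] {L : ι → Type u} [∀ i, LinearOrder (L i)]
  [∀ i, WellFoundedLT (L i)] (st : ι → Prop)

/-- The product relation, strict in the coordinates in `st`. -/
def rel (x y : ∀ i, L i) : Prop := ∀ i, x i ≤ y i ∧ (st i → x i < y i)

/-- The order types of the sides of a box. -/
noncomputable def μ (s : ∀ i, Set (L i)) : ι → Ordinal.{u} := fun i =>
  Ordinal.type ((· < ·) : s i → s i → Prop)

theorem type_mono {K : Type u} [LinearOrder K] [WellFoundedLT K] {s t : Set K} (h : s ⊆ t) :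
    Ordinal.type ((· < ·) : s → s → Prop) ≤ Ordinal.type ((· < ·) : t → t → Prop) := by
  rw [Ordinal.type_le_iff']
  exact ⟨⟨⟨Set.inclusion h, Set.inclusion_injective h⟩, Iff.rfl⟩⟩

theorem type_lt {K : Type u} [LinearOrder K] [WellFoundedLT K] {s : Set K} {a : K} (ha : a ∈ s) :
    Ordinal.type ((· < ·) : ↥(s ∩ Set.Iio a) → ↥(s ∩ Set.Iio a) → Prop) <
      Ordinal.type ((· < ·) : s → s → Prop) := by
  refine lt_of_le_of_lt ?_ (Ordinal.typein_lt_type ((· < ·) : s → s → Prop) ⟨a, ha⟩)
  rw [← Ordinal.type_subrel, Ordinal.type_le_iff']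
  refine ⟨⟨⟨fun x => ⟨⟨x.1, x.2.1⟩, x.2.2⟩, ?_⟩, ?_⟩⟩
  · intro x y h
    have h1 := congrArg (fun z => (z.1.1 : K)) h
    exact Subtype.ext h1
  · intro x y
    exact Iff.rfl

theorem tun_box (s : ∀ i, Set (L i)) : Tun (rel (L := L) st) (Set.pi Set.univ s) := by
  classical
  suffices H : ∀ o : ι → Ordinal.{u}, ∀ s : ∀ i, Set (L i), μ s = o →
      Tun (rel (L := L) st) (Set.pi Set.univ s) from H _ s rfl
  intro o
  induction o using WellFoundedLT.induction with
  | ind o ih =>
    rintro s rfl c hc
    by_cases h1 : ∃ i, st i ∧ ∃ m ∈ s i, ∀ a ∈ s i, a ≤ m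
    · obtain ⟨i, hi, m, hm, hmax⟩ := h1
      refine glue (rel st) (X := Set.pi Set.univ s) (U := {x | x ∈ Set.pi Set.univ s ∧ x i = m}) hc
        (fun x hx => hx.1) ?_ (J := Unit) (fun _ => ()) (fun _ _ _ _ _ _ _ => rfl) ?_ ?_
      · rintro x ⟨hx, hxm⟩ z hz hxz
        exfalso
        have h2 := (hxz i).2 hi
        have h3 := hmax (z i) (hz i trivial)
        rw [hxm] at h2
        exact absurd h3 (not_le_of_gt h2)
      · refine ⟨c, hc, fun x _ y _ h => h, ?_⟩
        rintro x ⟨hx, hxm⟩ y _ _ z hz hxz
        exfalso
        have h2 := (hxz i).2 hi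
        rw [hxm, hz.2] at h2
        exact lt_irrefl _ h2
      · intro j
        let s' : ∀ i, Set (L i) := Function.update s i (s i ∩ Set.Iio m)
        have hs'i : s' i = s i ∩ Set.Iio m := Function.update_self _ _ _
        have hs'j : ∀ j, j ≠ i → s' j = s j := fun j hj => Function.update_of_ne hj _ _
        have hset : {x | x ∈ Set.pi Set.univ s ∧ x ∉ {x | x ∈ Set.pi Set.univ s ∧ x i = m} ∧
            (fun _ => () : (∀ i, L i) → Unit) x = j} = Set.pi Set.univ s' := by
          ext x
          constructor
          · rintro ⟨hx, hx', -⟩ j _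
            by_cases hj : j = i
            · subst hj
              rw [hs'i]
              refine ⟨hx _ trivial, lt_of_le_of_ne (hmax _ (hx _ trivial)) ?_⟩
              intro h
              exact hx' ⟨hx, h⟩
            · rw [hs'j j hj]
              exact hx j trivial
          · intro hx
            have hxs : x ∈ Set.pi Set.univ s := by
              intro j _
              by_cases hj : j = i
              · subst hj
                have := hx j trivial
                rw [hs'i] at this
                exact this.1
              · have := hx j trivial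
                rw [hs'j j hj] at this
                exact this
            refine ⟨hxs, ?_, rfl⟩
            rintro ⟨-, hxm⟩
            have := hx i trivial
            rw [hs'i] at this
            exact ne_of_lt this.2 hxm
        rw [hset]
        refine ih (μ s') ?_ s' rfl
        rw [Pi.lt_def]
        refine ⟨fun j => ?_, i, ?_⟩
        · change Ordinal.type ((· < ·) : s' j → s' j → Prop) ≤ Ordinal.type ((· < ·) : s j → s j → Prop)
          apply type_mono
          by_cases hj : j = i
          · subst hj
            rw [hs'i]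
            exact Set.inter_subset_left
          · rw [hs'j j hj]
        · change Ordinal.type ((· < ·) : s' i → s' i → Prop) < Ordinal.type ((· < ·) : s i → s i → Prop)
          rw [hs'i]
          exact type_lt hm
    · push Not at h1
      by_cases hne : (Set.pi Set.univ s).Nonempty
      swap
      · rw [Set.not_nonempty_iff_eq_empty.1 hne]
        exact tun_empty _ _
      -- the corner
      let col : (∀ i, L i) → Set ℕ := fun b => c '' {x | x ∈ Set.pi Set.univ s ∧ ∀ i, b i ≤ x i}
      have hcolfin : ∀ b, (col b).Finite := fun b => hc.subset (Set.image_subset_range _ _)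
      obtain ⟨a, ha, hmin⟩ : ∃ a ∈ Set.pi Set.univ s, ∀ b ∈ Set.pi Set.univ s,
          (col a).ncard ≤ (col b).ncard := by
        obtain ⟨n, ⟨a, ha, rfl⟩, hn⟩ := (wellFounded_lt (α := ℕ)).has_min
          ((fun b => (col b).ncard) '' Set.pi Set.univ s) (hne.image _)
        exact ⟨a, ha, fun b hb => not_lt.1 (hn _ ⟨b, hb, rfl⟩)⟩
      let I : (∀ i, L i) → Finset ι := fun x => Finset.univ.filter fun i => a i ≤ x i
      have hI : ∀ x i, i ∈ I x ↔ a i ≤ x i := by intro x i; simp [I]
      have hImono : ∀ x z, rel st x z → I x ⊆ I z := by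
        intro x z hxz i hi
        rw [hI] at hi ⊢
        exact hi.trans (hxz i).1
      let k := Fintype.card ι
      have hk : ∀ x, (I x).card ≤ k := fun x => Finset.card_le_univ _
      have main : ∀ m : ℕ, TunC (rel st) {x | x ∈ Set.pi Set.univ s ∧ k ≤ (I x).card + m} c := by
        intro m
        induction m with
        | zero =>
          have hcone : ∀ x, x ∈ {x | x ∈ Set.pi Set.univ s ∧ k ≤ (I x).card + 0} →
              ∀ i, a i ≤ x i := by
            rintro x ⟨_, hx⟩ i
            have h2 : I x = Finset.univ :=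
              Finset.eq_univ_of_card _ (le_antisymm (hk x) (by simpa using hx))
            rw [← hI, h2]
            exact Finset.mem_univ i
          refine ⟨c, hc, fun x _ y _ h => h, ?_⟩
          intro x hx y hy _ z hz _
          have hay := hcone y hy
          have haz := hcone z hz
          have hb : ∀ i, ∃ b ∈ s i, y i ≤ b ∧ (st i → y i < b) := by
            intro i
            by_cases hi : st i
            · obtain ⟨b, hb, hb'⟩ := h1 i hi (y i) (hy.1 i trivial)
              exact ⟨b, hb, hb'.le, fun _ => hb'⟩
            · exact ⟨y i, hy.1 i trivial, le_rfl, fun h => absurd h hi⟩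
          choose b hbs hyb hyb' using hb
          have hsub : col b ⊆ col a := by
            rintro _ ⟨w, ⟨hw1, hw2⟩, rfl⟩
            exact ⟨w, ⟨hw1, fun i => (hay i).trans ((hyb i).trans (hw2 i))⟩, rfl⟩
          have heq : col b = col a :=
            Set.eq_of_subset_of_ncard_le hsub (hmin b fun i _ => hbs i) (hcolfin a)
          have hzc : c z ∈ col a := ⟨z, ⟨hz.1, haz⟩, rfl⟩
          rw [← heq] at hzc
          obtain ⟨z', ⟨hz'1, hz'2⟩, hz'3⟩ := hzc
          refine ⟨z', ⟨hz'1, ?_⟩, ?_, hz'3⟩
          · have h2 : I z' = Finset.univ := by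
              ext i
              rw [hI]
              simp only [Finset.mem_univ, iff_true]
              exact (hay i).trans ((hyb i).trans (hz'2 i))
            rw [h2]
            simp [k]
          · intro i
            exact ⟨(hyb i).trans (hz'2 i), fun hi => (hyb' i hi).trans_le (hz'2 i)⟩
        | succ m ihm =>
          refine glue (rel st) hc
            (U := {x | x ∈ Set.pi Set.univ s ∧ k ≤ (I x).card + m}) ?_ ?_ (J := Finset ι) I ?_ ihm ?_
          · rintro x ⟨hx, hx'⟩
            exact ⟨hx, by omega⟩
          · rintro x ⟨hx, hx'⟩ z ⟨hz, _⟩ hxz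
            exact ⟨hz, by have := Finset.card_le_card (hImono x z hxz); omega⟩
          · rintro x ⟨hx, hx1⟩ hx2 z ⟨hz, hz1⟩ hz2 hxz
            have h2 : ¬ k ≤ (I x).card + m := fun h => hx2 ⟨hx, h⟩
            have h3 : ¬ k ≤ (I z).card + m := fun h => hz2 ⟨hz, h⟩
            exact Finset.eq_of_subset_of_card_le (hImono x z hxz) (by omega)
          · intro j
            by_cases hj : k ≤ j.card + (m + 1) ∧ ¬ k ≤ j.card + m
            swap
            · have hset : {x | x ∈ {x | x ∈ Set.pi Set.univ s ∧ k ≤ (I x).card + (m + 1)} ∧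
                  x ∉ {x | x ∈ Set.pi Set.univ s ∧ k ≤ (I x).card + m} ∧ I x = j} = ∅ := by
                rw [Set.eq_empty_iff_forall_notMem]
                rintro x ⟨⟨hx1, hx2⟩, hx3, rfl⟩
                exact hj ⟨hx2, fun h => hx3 ⟨hx1, h⟩⟩
              rw [hset]
              intro c' _
              exact tun_empty _ _
            · let s' : ∀ i, Set (L i) := fun i =>
                if i ∈ j then s i ∩ Set.Ici (a i) else s i ∩ Set.Iio (a i)
              have hset : {x | x ∈ {x | x ∈ Set.pi Set.univ s ∧ k ≤ (I x).card + (m + 1)} ∧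
                  x ∉ {x | x ∈ Set.pi Set.univ s ∧ k ≤ (I x).card + m} ∧ I x = j} =
                  Set.pi Set.univ s' := by
                ext x
                constructor
                · rintro ⟨⟨hx1, hx2⟩, hx3, rfl⟩ i _
                  by_cases hi : i ∈ I x
                  · simp only [s', hi, if_true]
                    exact ⟨hx1 i trivial, (hI x i).1 hi⟩
                  · simp only [s', hi, if_false]
                    refine ⟨hx1 i trivial, ?_⟩
                    rw [hI] at hi
                    exact not_le.1 hi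
                · intro hx
                  have hx1 : x ∈ Set.pi Set.univ s := by
                    intro i _
                    have := hx i trivial
                    by_cases hi : i ∈ j
                    · simp only [s', hi, if_true] at this
                      exact this.1
                    · simp only [s', hi, if_false] at this
                      exact this.1
                  have hx2 : I x = j := by
                    ext i
                    rw [hI]
                    have := hx i trivial
                    by_cases hi : i ∈ j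
                    · simp only [s', hi, if_true] at this
                      exact ⟨fun _ => hi, fun _ => this.2⟩
                    · simp only [s', hi, if_false] at this
                      exact ⟨fun h => absurd h (not_le_of_gt this.2), fun h => absurd h hi⟩
                  refine ⟨⟨hx1, ?_⟩, ?_, hx2⟩
                  · rw [hx2]; exact hj.1
                  · rintro ⟨_, h⟩
                    rw [hx2] at h
                    exact hj.2 h
              rw [hset]
              refine ih (μ s') ?_ s' rfl
              obtain ⟨i0, hi0⟩ : ∃ i, i ∉ j := by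
                by_contra hcon
                push Not at hcon
                have : j = Finset.univ := by ext i; simp [hcon i]
                apply hj.2
                rw [this]
                simp [k]
              rw [Pi.lt_def]
              refine ⟨fun i => ?_, i0, ?_⟩
              · change Ordinal.type ((· < ·) : s' i → s' i → Prop) ≤
                  Ordinal.type ((· < ·) : s i → s i → Prop)
                apply type_mono
                by_cases hi : i ∈ j
                · simp only [s', hi, if_true]
                  exact Set.inter_subset_left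
                · simp only [s', hi, if_false]
                  exact Set.inter_subset_left
              · change Ordinal.type ((· < ·) : s' i0 → s' i0 → Prop) <
                  Ordinal.type ((· < ·) : s i0 → s i0 → Prop)
                have h2 : s' i0 = s i0 ∩ Set.Iio (a i0) := by simp only [s', hi0, if_false]
                rw [h2]
                exact type_lt (ha i0 trivial)
      have h2 := main k
      have h3 : {x | x ∈ Set.pi Set.univ s ∧ k ≤ (I x).card + k} = Set.pi Set.univ s := by
        ext x
        exact ⟨fun h => h.1, fun h => ⟨h, by omega⟩⟩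
      rw [h3] at h2
      exact h2

theorem tun_univ : Tun (rel (L := L) st) Set.univ := by
  have h := tun_box (L := L) st (fun _ => Set.univ)
  rwa [Set.pi_univ] at h

end product

/-- For every finite family of ordinals `α_1, ..., α_k` the modal algebras of the direct products
of the frames `(α_i, ≤)` and of the frames `(α_i, <)` are locally finite. -/
theorem result (k : ℕ) (α : Fin k → Ordinal.{u}) :
    AlgLocallyFinite (prodLe α) ∧ AlgLocallyFinite (prodLt α) := by
  constructor
  · have h := algLocallyFinite_of_tun _ (tun_univ (L := fun i => Set.Iio (α i)) fun _ => False)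
    have e : rel (L := fun i => Set.Iio (α i)) (fun _ => False) = prodLe α := by
      funext x y
      refine propext (forall_congr' fun i => ?_)
      simp
    rwa [e] at h
  · have h := algLocallyFinite_of_tun _ (tun_univ (L := fun i => Set.Iio (α i)) fun _ => True)
    have e : rel (L := fun i => Set.Iio (α i)) (fun _ => True) = prodLt α := by
      funext x y
      refine propext (forall_congr' fun i => ?_)
      exact ⟨fun h => h.2 trivial, fun h => ⟨h.le, fun _ => h⟩⟩
    rwa [e] at h

end Pool.Agent.Results.MP_d97c10_lc.OrdinalProducts
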